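import Pool.Agent.Y157.PS.Stm

/-!
# The group of `ℓ`-power torsion classes is divisible (job PS-DIVS of helper157)
-/

set_option autoImplicit false
set_option linter.all false

open Polynomial FF

namespace Pool.Agent.Y496.PS

open Pool.Agent.Y157.PS

/-- over an algebraically closed field of constants all places have degree one -/
theorem deg_one {κ K : Type} [Field κ] [IsAlgClosed κ] [CharZero κ] [Field K] [Algebra κ K]
    [IsFF κ K] (P : Place κ K) : P.deg = 1 := by
  have h1 : Function.Bijective (algebraMap κ P.RF) :=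
    IsAlgClosed.algebraMap_bijective_of_isIntegral
  unfold Place.deg
  have e : κ ≃ₗ[κ] P.RF := LinearEquiv.ofBijective (Algebra.linearMap κ P.RF) h1
  rw [← e.finrank_eq, Module.finrank_self]

theorem divs : S_T1 → S_RES → S_DIVS := by
  intro hT1 hRES ℓ _ κ R M _ _ _ _ _ _ _ _ _ x B Y hcov N hlev hY h n h0 hN
  haveI := hlev.fin
  haveI := hlev.gal
  haveI hff : IsFF κ N := RatF.isFF hcov.rat
  obtain ⟨hr1, hr2, hr3⟩ := hRES ℓ κ R M x B Y hcov N hlev.fin hY
  have hl0 : ((ℓ ^ n : ℕ) : ℤ) ≠ 0 := by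
    have := (Fact.out : ℓ.Prime).pos
    positivity
  -- the order of `h` depends only on the restriction
  have key : ∀ W W' : Place κ M, (∀ z : N, W.ord (z : M) = W'.ord (z : M)) →
      W.ord h = W'.ord h := by
    intro W W' hWW
    obtain ⟨γ, hγ1, hγ2⟩ := hr3 W W' hWW
    have hγ0 : γ h ≠ 0 := (map_ne_zero γ).2 h0
    have h1 : (γ h / h) ^ (ℓ ^ n) = 1 := by
      rw [div_pow, ← map_pow, hγ1 _ hN, div_self (pow_ne_zero _ h0)]
    have h2 := W.ord_pow (γ h / h) (ℓ ^ n)
    rw [h1, W.ord_one] at h2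
    have h3 : W.ord (γ h / h) = 0 := by
      rcases mul_eq_zero.1 h2.symm with h4 | h4
      · exact absurd h4 hl0
      · exact h4
    rw [W.ord_div hγ0 h0] at h3
    rw [hγ2]
    omega
  choose up hup using hr2
  have hpow : ∀ w : Place κ N, ((ℓ ^ n : ℕ) : ℤ) * (up w).ord h = w.ord ⟨h ^ (ℓ ^ n), hN⟩ := by
    intro w
    rw [← hup w ⟨h ^ (ℓ ^ n), hN⟩, (up w).ord_pow]
  have hfin : (Function.support fun w : Place κ N => (up w).ord h).Finite := by
    refine (finite_support (k := κ) (K := N) ⟨h ^ (ℓ ^ n), hN⟩).subset ?_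
    intro w hw
    simp only [Set.mem_setOf_eq]
    rw [← hpow w]
    exact mul_ne_zero hl0 hw
  let D : Place κ N →₀ ℤ := Finsupp.ofSupportFinite (fun w : Place κ N => (up w).ord h) hfin
  have hD : ∀ w, D w = (up w).ord h := fun w => rfl
  have hdeg : ∀ E : Place κ N →₀ ℤ, ddeg E = E.sum fun _ n => n := by
    intro E
    unfold ddeg
    refine Finsupp.sum_congr fun w _ => ?_
    rw [deg_one w]
    simp
  have hsum : D.sum (fun _ n => n) = 0 := by
    have h1 : (ℓ ^ n) • D = divisor κ (⟨h ^ (ℓ ^ n), hN⟩ : N) := by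
      ext w
      rw [Finsupp.smul_apply, divisor_apply, ← hpow w, hD, nsmul_eq_mul]
    have h2 := ddeg_nsmul (ℓ ^ n) D
    rw [h1, ddeg_divisor] at h2
    rw [← hdeg]
    rcases mul_eq_zero.1 h2.symm with h4 | h4
    · exact absurd h4 hl0
    · exact h4
  obtain ⟨z, hz0, hz⟩ := hT1 ℓ κ R N x hcov.rat hlev.card D (by rw [hsum]; exact dvd_zero _)
  have hz0' : (z : M) ≠ 0 := fun h => hz0 (Subtype.ext h)
  obtain ⟨g, hg⟩ := hcov.root (h / (z : M)) (div_ne_zero h0 hz0') (by
    intro W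
    obtain ⟨w, hw⟩ := hr1 W
    have h1 : W.ord h = D w := by
      rw [hD]
      refine key W (up w) ?_
      intro z'
      rw [hw, hup]
    rw [W.ord_div h0 hz0', h1, hw]
    have := hz w
    rw [← dvd_neg] at this
    have h2 : -(w.ord z - D w) = D w - w.ord z := by ring
    rwa [h2] at this)
  refine ⟨(z : M), z.2, g, hz0', ?_⟩
  rw [hg, mul_div_cancel₀ _ hz0']

end Pool.Agent.Y496.PS
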