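import Pool.Agent.Y157.PS.Stm

/-!
# Places of `M` and of a finite level (job PS-RES of helper157)
-/

set_option autoImplicit false
set_option linter.all false

open Polynomial FF

namespace Pool.Agent.Y496.PS

open Pool.Agent.Y157.PS

section

variable {κ R M : Type} [Field κ] [Field R] [Field M] [Algebra κ R] [Algebra R M] [Algebra κ M]
  [IsScalarTower κ R M]

/-- the restriction of a place to a subextension which contains a uniformiser -/
def resPlace (N : IntermediateField R M) (W : Place κ M)
    (h : ∃ t : M, t ∈ N ∧ t ≠ 0 ∧ W.ord t = 1) : Place κ N where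
  ord z := W.ord (z : M)
  ord_zero := W.ord_zero
  ord_mul := by
    intro f g hf hg
    exact W.ord_mul (fun h => hf (Subtype.ext h)) (fun h => hg (Subtype.ext h))
  ord_add := by
    intro f g hf hg hfg
    exact W.ord_add (fun h => hf (Subtype.ext h)) (fun h => hg (Subtype.ext h))
      (fun h => hfg (Subtype.ext h))
  ord_const := by
    intro c hc
    exact W.ord_const hc
  surj := by
    obtain ⟨t, htN, ht0, ht⟩ := h
    exact ⟨⟨t, htN⟩, fun h => ht0 (congrArg Subtype.val h), ht⟩

/-- the composition of a place with an automorphism -/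
def compPlace (W : Place κ M) (γ : M ≃ₐ[κ] M) : Place κ M where
  ord z := W.ord (γ z)
  ord_zero := by rw [map_zero]; exact W.ord_zero
  ord_mul := by
    intro f g hf hg
    rw [map_mul]
    exact W.ord_mul ((map_ne_zero γ).2 hf) ((map_ne_zero γ).2 hg)
  ord_add := by
    intro f g hf hg hfg
    rw [map_add]
    refine W.ord_add ((map_ne_zero γ).2 hf) ((map_ne_zero γ).2 hg) ?_
    rw [← map_add]
    exact (map_ne_zero γ).2 hfg
  ord_const := by
    intro c hc
    rw [AlgEquiv.commutes]
    exact W.ord_const hc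
  surj := by
    obtain ⟨t, ht0, ht⟩ := W.surj
    exact ⟨γ.symm t, (map_ne_zero γ.symm).2 ht0, by rw [AlgEquiv.apply_symm_apply]; exact ht⟩

variable {ℓ : ℕ} {x : R} {B : Finset κ} {Y : M}

/-- every finite level which contains `Y` contains a uniformiser of every place -/
theorem exists_unif (h : Cov ℓ κ R M x B Y) (N : IntermediateField R M) (hY : Y ∈ N)
    (W : Place κ M) : ∃ t : M, t ∈ N ∧ t ≠ 0 ∧ W.ord t = 1 := by
  have hne : ∀ t : M, W.ord t ≠ 0 → t ≠ 0 := by
    intro t ht h0
    rw [h0, W.ord_zero] at ht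
    exact ht rfl
  have hx : algebraMap R M x ∈ N := N.algebraMap_mem x
  have hc : ∀ c : κ, algebraMap κ M c ∈ N := by
    intro c
    rw [IsScalarTower.algebraMap_apply κ R M]
    exact N.algebraMap_mem _
  rcases h.loc' W with ⟨e, he, h1, h2⟩ | ⟨a, ha, h1⟩ | h1
  · exact ⟨Y, hY, hne _ (by omega), h2⟩
  · exact ⟨_, N.sub_mem hx (hc a), hne _ (by omega), h1⟩
  · refine ⟨(algebraMap R M x)⁻¹, N.inv_mem hx, inv_ne_zero (hne _ (by omega)), ?_⟩
    rw [W.ord_inv, h1]; rfl

theorem mem_O_res (N : IntermediateField R M) (W : Place κ M)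
    (h : ∃ t : M, t ∈ N ∧ t ≠ 0 ∧ W.ord t = 1) (z : N) :
    z ∈ (resPlace N W h).O ↔ (z : M) ∈ W.O := by
  rw [Place.mem_O, Place.mem_O]
  unfold Place.Reg
  constructor
  · rintro (h1 | h1)
    · left; rw [h1]; rfl
    · right; exact h1
  · rintro (h1 | h1)
    · left; exact Subtype.ext h1
    · right; exact h1

theorem mem_O_comp (W : Place κ M) (γ : M ≃ₐ[κ] M) (z : M) :
    z ∈ (compPlace W γ).O ↔ γ z ∈ W.O := by
  rw [Place.mem_O, Place.mem_O]
  unfold Place.Reg
  rw [map_eq_zero]
  rfl

end

theorem res : S_CONJ → S_EXTV → S_RES := by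
  intro hC hE ℓ _ κ R M _ _ _ _ _ _ _ _ _ x B Y h N hfin hY
  refine ⟨?_, ?_, ?_⟩
  · intro W
    exact ⟨resPlace N W (exists_unif h N hY W), fun z => rfl⟩
  · intro w
    obtain ⟨V, hV⟩ := hE N M w.O
    have hmem : ∀ z : N, z ∈ w.O ↔ (z : M) ∈ V := by
      intro z
      rw [← hV]
      rfl
    obtain ⟨W, hW, -⟩ := h.loc V (by
      intro c
      exact (hmem (algebraMap κ N c)).1 (w.reg_const c)) (by
      intro htop
      apply Place.O_ne_top w
      rw [eq_top_iff]
      intro z _
      rw [hmem, htop]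
      trivial)
    refine ⟨W, ?_⟩
    have h1 : resPlace N W (exists_unif h N hY W) = w := by
      apply Place.ext_O
      ext z
      rw [mem_O_res, hmem, hW]
    intro z
    exact congrFun (congrArg Place.ord h1) z
  · intro W W' hWW
    have hgal := h.gal
    have hnor : Normal N M := IsGalois.to_normal
    obtain ⟨γ, hγ⟩ := hC N M W.O W'.O (by
      ext z
      change (z : M) ∈ W.O ↔ (z : M) ∈ W'.O
      rw [Place.mem_O, Place.mem_O]
      unfold Place.Reg
      rw [hWW z])
    refine ⟨γ.restrictScalars R, ?_, ?_⟩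
    · intro z hz
      exact γ.commutes ⟨z, hz⟩
    · have h1 : compPlace W ((γ.restrictScalars R).restrictScalars κ) = W' := by
        apply Place.ext_O
        ext z
        rw [mem_O_comp, hγ]
        rfl
      intro z
      exact (congrFun (congrArg Place.ord h1) z).symm

end Pool.Agent.Y496.PS
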